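import Pool.Agent.Q109.LD.Stm

set_option autoImplicit false

/-! # Project LD, jobs EXT, BP, FAC -/

namespace Pool.Agent.Q125.LD

open Set Q109.LD Filter Topology

variable {d m : ℕ}

theorem inner_cont (a : E d) (v w : E d) : Continuous fun t : ℝ => inner ℝ a (v + t • w) := by
  fun_prop

/-- small steps stay in the polyhedron if the tight constraints allow them -/
theorem eventually_mem (a : Fin m → E d) (b : Fin m → ℝ) (v w : E d) (hv : v ∈ poly a b)
    (hw : ∀ i, inner ℝ (a i) v = b i → inner ℝ (a i) w ≤ 0) :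
    ∀ᶠ t : ℝ in 𝓝[>] 0, v + t • w ∈ poly a b := by
  have h : ∀ i, ∀ᶠ t : ℝ in 𝓝[>] 0, inner ℝ (a i) (v + t • w) ≤ b i := by
    intro i
    rcases eq_or_lt_of_le (hv i) with he | hlt
    · filter_upwards [self_mem_nhdsWithin] with t ht
      rw [inner_add_right, inner_smul_right, he]
      have := mul_nonneg (le_of_lt (Set.mem_Ioi.1 ht)) (neg_nonneg.2 (hw i he))
      linarith
    · have h1 : Tendsto (fun t : ℝ => inner ℝ (a i) (v + t • w)) (𝓝 0) (𝓝 (inner ℝ (a i) v)) := by
        have := (inner_cont (a i) v w).tendsto 0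
        simpa using this
      exact ((h1.eventually (gt_mem_nhds hlt)).filter_mono nhdsWithin_le_nhds).mono
        fun t ht => le_of_lt ht
  exact (eventually_all.2 h).mono fun t ht => ht

theorem span_tight (a : Fin m → E d) (b : Fin m → ℝ) (v : E d)
    (hv : v ∈ (poly a b).extremePoints ℝ) :
    Submodule.span ℝ (a '' {i | inner ℝ (a i) v = b i}) = ⊤ := by
  by_contra hne
  have h1 : (Submodule.span ℝ (a '' {i | inner ℝ (a i) v = b i}))ᗮ ≠ ⊥ := fun h =>
    hne ((Submodule.orthogonal_eq_bot_iff).1 h)
  obtain ⟨w, hw, hw0⟩ := Submodule.exists_mem_ne_zero_of_ne_bot h1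
  have hw' : ∀ i, inner ℝ (a i) v = b i → inner ℝ (a i) w = 0 := fun i hi => by
    have h2 : a i ∈ Submodule.span ℝ (a '' {i | inner ℝ (a i) v = b i}) :=
      Submodule.subset_span ⟨i, hi, rfl⟩
    exact Submodule.inner_right_of_mem_orthogonal h2 hw
  have hvp : v ∈ poly a b := hv.1
  have e1 := eventually_mem a b v w hvp fun i hi => (hw' i hi).le
  have e2 := eventually_mem a b v (-w) hvp fun i hi => by
    rw [inner_neg_right, hw' i hi, neg_zero]
  obtain ⟨t, ⟨ht1, ht2⟩, ht0⟩ := ((e1.and e2).and (self_mem_nhdsWithin)).exists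
  have ht0' : 0 < t := ht0
  have hseg : v ∈ openSegment ℝ (v + t • w) (v + t • (-w)) := by
    refine ⟨1 / 2, 1 / 2, by norm_num, by norm_num, by norm_num, ?_⟩
    module
  have := (mem_extremePoints.1 hv).2 _ ht1 _ ht2 hseg
  have h2 : t • w = 0 := by
    have h3 := this.1
    simpa using h3
  rcases smul_eq_zero.1 h2 with h | h
  · exact absurd h ht0'.ne'
  · exact hw0 h

theorem ext : S_EXT := by
  intro d m a b
  refine ⟨fun v hv => span_tight a b v hv, ?_⟩
  have hinj : Set.InjOn (fun v => {i | inner ℝ (a i) v = b i}) ((poly a b).extremePoints ℝ) := by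
    intro v hv v' hv' h
    simp only at h
    have h1 := span_tight a b v hv
    have h2 : v - v' ∈ (Submodule.span ℝ (a '' {i | inner ℝ (a i) v = b i}))ᗮ := by
      rw [Submodule.mem_orthogonal]
      intro u hu
      induction hu using Submodule.span_induction with
      | mem x hx =>
        obtain ⟨i, hi, rfl⟩ := hx
        have hi' : i ∈ {i | inner ℝ (a i) v' = b i} := h ▸ hi
        rw [inner_sub_right, hi, hi', sub_self]
      | zero => simp
      | add x y _ _ hx hy => rw [inner_add_left, hx, hy, add_zero]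
      | smul c x _ hx => rw [inner_smul_left, hx, mul_zero]
    rw [h1, Submodule.top_orthogonal_eq_bot, Submodule.mem_bot] at h2
    exact sub_eq_zero.1 h2
  exact Set.Finite.of_finite_image (Set.toFinite _) hinj

theorem poly_closed (a : Fin m → E d) (b : Fin m → ℝ) : IsClosed (poly a b) := by
  have : poly a b = ⋂ i, {x | inner ℝ (a i) x ≤ b i} := by
    ext x
    simp [poly]
  rw [this]
  exact isClosed_iInter fun i => isClosed_le (by fun_prop) continuous_const

theorem poly_convex (a : Fin m → E d) (b : Fin m → ℝ) : Convex ℝ (poly a b) := by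
  intro x hx y hy s t hs ht hst i
  rw [inner_add_right, inner_smul_right, inner_smul_right]
  calc s * inner ℝ (a i) x + t * inner ℝ (a i) y ≤ s * b i + t * b i := by
        gcongr
        · exact hx i
        · exact hy i
    _ = b i := by rw [← add_mul, hst, one_mul]

theorem bp (hE : S_EXT) : S_BP := by
  intro d m a b hb
  have hfin := (hE d m a b).2
  refine ⟨hfin.toFinset, ?_⟩
  rw [hfin.coe_toFinset]
  have hc : IsCompact (poly a b) := Metric.isCompact_of_isClosed_isBounded (poly_closed a b) hb
  have h1 := closure_convexHull_extremePoints hc (poly_convex a b)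
  have h2 : IsClosed (convexHull ℝ ((poly a b).extremePoints ℝ)) :=
    hfin.isClosed_convexHull ℝ
  rw [h2.closure_eq] at h1
  exact h1.symm

theorem fac : S_FAC := by
  classical
  rintro d m a b F ⟨u, h, hu, hle, hF, hne, hfr⟩
  have hFsub : ∀ x ∈ F, x ∈ poly a b ∧ inner ℝ u x = h := fun x hx => by
    rw [hF] at hx
    exact hx
  -- every point of the facet is tight for a nontrivial inequality
  have htight : ∀ x ∈ F, ∃ i, a i ≠ 0 ∧ inner ℝ (a i) x = b i := by
    intro x hx
    by_contra hc
    push Not at hc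
    obtain ⟨hxp, hxu⟩ := hFsub x hx
    have e1 := eventually_mem a b x u hxp fun i hi => by
      have : a i = 0 := by
        by_contra h0
        exact hc i h0 hi
      rw [this, inner_zero_left]
    obtain ⟨t, ht, ht0⟩ := (e1.and self_mem_nhdsWithin).exists
    have ht0' : 0 < t := ht0
    have h1 := hle _ ht
    rw [inner_add_right, inner_smul_right, hxu, real_inner_self_eq_norm_sq] at h1
    have h2 : 0 < t * ‖u‖ ^ 2 := mul_pos ht0' (pow_pos (norm_pos_iff.2 hu) 2)
    linarith
  -- a point with the least number of tight constraints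
  let T : E d → Finset (Fin m) := fun x => Finset.univ.filter fun i => a i ≠ 0 ∧ inner ℝ (a i) x = b i
  obtain ⟨p, hpF, hpmin⟩ : ∃ p ∈ F, ∀ q ∈ F, (T p).card ≤ (T q).card := by
    have hw := WellFounded.min_mem (wellFounded_lt (α := ℕ)) ((fun x => (T x).card) '' F)
      (hne.image _)
    obtain ⟨p, hp, hpe⟩ := hw
    refine ⟨p, hp, fun q hq => ?_⟩
    have := WellFounded.not_lt_min (wellFounded_lt (α := ℕ)) ((fun x => (T x).card) '' F)
      (x := (T q).card) ⟨q, hq, rfl⟩
    simp only at hpe
    omega
  obtain ⟨i, hi0, hip⟩ := htight p hpF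
  have hall : ∀ q ∈ F, inner ℝ (a i) q = b i := by
    intro q hq
    by_contra hqi
    have hFconv : (1 / 2 : ℝ) • p + (1 / 2 : ℝ) • q ∈ F := by
      rw [hF]
      refine ⟨poly_convex a b (hFsub p hpF).1 (hFsub q hq).1 (by norm_num) (by norm_num)
        (by norm_num), ?_⟩
      rw [inner_add_right, inner_smul_right, inner_smul_right, (hFsub p hpF).2, (hFsub q hq).2]
      ring
    have hlt : (T ((1 / 2 : ℝ) • p + (1 / 2 : ℝ) • q)).card < (T p).card := by
      apply Finset.card_lt_card
      rw [Finset.ssubset_iff_of_subset]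
      · refine ⟨i, by simp [T, hi0, hip], ?_⟩
        simp only [T, Finset.mem_filter, Finset.mem_univ, true_and, not_and]
        intro _
        rw [inner_add_right, inner_smul_right, inner_smul_right, hip]
        have := lt_of_le_of_ne ((hFsub q hq).1 i) hqi
        intro he
        linarith
      · intro j hj
        simp only [T, Finset.mem_filter, Finset.mem_univ, true_and] at hj ⊢
        refine ⟨hj.1, ?_⟩
        have h1 := hj.2
        rw [inner_add_right, inner_smul_right, inner_smul_right] at h1
        have h2 := (hFsub q hq).1 j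
        have h3 := (hFsub p hpF).1 j
        linarith
    exact absurd (hpmin _ hFconv) (not_le.2 hlt)
  -- the direction of the facet
  have hsub : ∀ c : E d, (∃ s : ℝ, ∀ x ∈ F, inner ℝ c x = s) →
      vectorSpan ℝ F ≤ (Submodule.span ℝ {c})ᗮ := by
    rintro c ⟨s, hs⟩
    rw [vectorSpan, Submodule.span_le]
    rintro z ⟨x, hx, y, hy, rfl⟩
    rw [SetLike.mem_coe, Submodule.mem_orthogonal_singleton_iff_inner_right]
    simp only [vsub_eq_sub]
    rw [inner_sub_right, hs x hx, hs y hy, sub_self]
  have hfr' : ∀ c : E d, c ≠ 0 → (∃ s : ℝ, ∀ x ∈ F, inner ℝ c x = s) →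
      vectorSpan ℝ F = (Submodule.span ℝ {c})ᗮ := by
    intro c hc hs
    apply Submodule.eq_of_le_of_finrank_eq (hsub c hs)
    have h1 := Submodule.finrank_add_finrank_orthogonal (Submodule.span ℝ {c})
    rw [finrank_span_singleton hc, finrank_euclideanSpace_fin] at h1
    omega
  have h1 := hfr' u hu ⟨h, fun x hx => (hFsub x hx).2⟩
  have h2 := hfr' (a i) hi0 ⟨b i, hall⟩
  have h3 : a i ∈ Submodule.span ℝ {u} := by
    rw [← Submodule.orthogonal_orthogonal (Submodule.span ℝ {u}), ← h1, h2,
      Submodule.orthogonal_orthogonal]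
    exact Submodule.mem_span_singleton_self _
  obtain ⟨c, hc⟩ := Submodule.mem_span_singleton.1 h3
  have hc0 : c ≠ 0 := by
    rintro rfl
    exact hi0 (by rw [← hc, zero_smul])
  have hbi : b i = c * h := by
    rw [← hip, ← hc, real_inner_smul_left, (hFsub p hpF).2]
  refine ⟨i, ?_⟩
  rw [hF]
  ext x
  simp only [fc, mem_ofPred_eq]
  refine and_congr_right fun _ => ?_
  rw [← hc, real_inner_smul_left, hbi]
  exact ⟨fun h => mul_left_cancel₀ hc0 h, fun h => by rw [h]⟩

end Pool.Agent.Q125.LD
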