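import Pool.Agent.Q125.LD.Tru
import Pool.Agent.Helper840.BallCube

set_option autoImplicit false

/-! # Project LD, job HREP (facet description of a polytope) -/

namespace Pool.Agent.Q125.LD

open Set Q109.LD Filter Topology

variable {d m : ℕ}

/-- a convex set all of whose points are tight for one of the inequalities in `S` is tight for one
of them -/
theorem common_tight (a : Fin m → E d) (b : Fin m → ℝ) (F : Set (E d)) (hFp : F ⊆ poly a b)
    (hmid : ∀ p ∈ F, ∀ q ∈ F, (1 / 2 : ℝ) • p + (1 / 2 : ℝ) • q ∈ F) (hne : F.Nonempty)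
    (S : Set (Fin m)) (hS : ∀ x ∈ F, ∃ i ∈ S, inner ℝ (a i) x = b i) :
    ∃ i ∈ S, ∀ x ∈ F, inner ℝ (a i) x = b i := by
  classical
  let T : E d → Finset (Fin m) := fun x => Finset.univ.filter fun i => i ∈ S ∧ inner ℝ (a i) x = b i
  obtain ⟨p, hpF, hpmin⟩ : ∃ p ∈ F, ∀ q ∈ F, (T p).card ≤ (T q).card := by
    have hw := WellFounded.min_mem (wellFounded_lt (α := ℕ)) ((fun x => (T x).card) '' F)
      (hne.image _)
    obtain ⟨p, hp, hpe⟩ := hw
    refine ⟨p, hp, fun q hq => ?_⟩
    have := WellFounded.not_lt_min (wellFounded_lt (α := ℕ)) ((fun x => (T x).card) '' F)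
      (x := (T q).card) ⟨q, hq, rfl⟩
    simp only at hpe
    omega
  obtain ⟨i, hiS, hip⟩ := hS p hpF
  refine ⟨i, hiS, fun q hq => ?_⟩
  by_contra hqi
  have hFconv := hmid p hpF q hq
  have hlt : (T ((1 / 2 : ℝ) • p + (1 / 2 : ℝ) • q)).card < (T p).card := by
    apply Finset.card_lt_card
    rw [Finset.ssubset_iff_of_subset]
    · refine ⟨i, by simp [T, hiS, hip], ?_⟩
      simp only [T, Finset.mem_filter, Finset.mem_univ, true_and, not_and]
      intro _
      rw [inner_add_right, inner_smul_right, inner_smul_right, hip]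
      have := lt_of_le_of_ne (hFp hq i) hqi
      intro he
      linarith
    · intro j hj
      simp only [T, Finset.mem_filter, Finset.mem_univ, true_and] at hj ⊢
      refine ⟨hj.1, ?_⟩
      have h1 := hj.2
      rw [inner_add_right, inner_smul_right, inner_smul_right] at h1
      have h2 := hFp hq j
      have h3 := hFp hpF j
      linarith
  exact absurd (hpmin _ hFconv) (not_le.2 hlt)

/-- the direction of a set of codimension one -/
theorem vectorSpan_eq (F : Set (E d)) (hfr : Module.finrank ℝ (vectorSpan ℝ F) + 1 = d) (c : E d)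
    (hc : c ≠ 0) (s : ℝ) (hs : ∀ x ∈ F, inner ℝ c x = s) :
    vectorSpan ℝ F = (Submodule.span ℝ {c})ᗮ := by
  apply Submodule.eq_of_le_of_finrank_eq
  · rw [vectorSpan, Submodule.span_le]
    rintro z ⟨x, hx, y, hy, rfl⟩
    rw [SetLike.mem_coe, Submodule.mem_orthogonal_singleton_iff_inner_right]
    simp only [vsub_eq_sub]
    rw [inner_sub_right, hs x hx, hs y hy, sub_self]
  · have h1 := Submodule.finrank_add_finrank_orthogonal (Submodule.span ℝ {c})
    rw [finrank_span_singleton hc, finrank_euclideanSpace_fin] at h1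
    omega

/-- irredundancy -/
theorem beyond_of (n : ℕ) (u : Fin n → E d) (h : Fin n → ℝ) (hu : ∀ i, ‖u i‖ = 1)
    (hint : ∃ x, ∀ i, inner ℝ (u i) x < h i) (hinj : Function.Injective (fc u h))
    (hne : ∀ i, (fc u h i).Nonempty)
    (hfr : ∀ i, Module.finrank ℝ (vectorSpan ℝ (fc u h i)) + 1 = d) (i : Fin n) :
    ∃ x, h i < inner ℝ (u i) x ∧ ∀ j, j ≠ i → inner ℝ (u j) x < h j := by
  have hu0 : ∀ i, u i ≠ 0 := fun i h0 => by
    have := hu i
    rw [h0, norm_zero] at this
    exact zero_ne_one this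
  obtain ⟨p, hp, hpj⟩ : ∃ p ∈ fc u h i, ∀ j, j ≠ i → inner ℝ (u j) p ≠ h j := by
    by_contra hc
    push Not at hc
    obtain ⟨j, hj, hall⟩ := common_tight u h (fc u h i) (fun x hx => hx.1)
      (fun p hp q hq => ⟨poly_convex u h hp.1 hq.1 (by norm_num) (by norm_num) (by norm_num), by
        rw [inner_add_right, inner_smul_right, inner_smul_right, hp.2, hq.2]
        ring⟩) (hne i) {j | j ≠ i} hc
    have h1 := vectorSpan_eq (fc u h i) (hfr i) (u i) (hu0 i) (h i) fun x hx => hx.2
    have h2 := vectorSpan_eq (fc u h i) (hfr i) (u j) (hu0 j) (h j) hall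
    have h3 : u j ∈ Submodule.span ℝ {u i} := by
      rw [← Submodule.orthogonal_orthogonal (Submodule.span ℝ {u i}), ← h1, h2,
        Submodule.orthogonal_orthogonal]
      exact Submodule.mem_span_singleton_self _
    obtain ⟨c, hc⟩ := Submodule.mem_span_singleton.1 h3
    have hcabs : |c| = 1 := by
      have := hu j
      rw [← hc, norm_smul, hu i, mul_one] at this
      exact this
    obtain ⟨p, hp⟩ := hne i
    have hhj : h j = c * h i := by
      rw [← hall p hp, ← hc, real_inner_smul_left, hp.2]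
    rcases (abs_eq (by norm_num : (0 : ℝ) ≤ 1)).1 hcabs with h4 | h4
    · have h5 : u j = u i := by rw [← hc, h4, one_smul]
      have h6 : h j = h i := by rw [hhj, h4, one_mul]
      apply hj
      apply hinj
      simp only [fc, h5, h6]
    · obtain ⟨x, hx⟩ := hint
      have h5 : u j = -u i := by rw [← hc, h4, neg_one_smul]
      have h6 : h j = -h i := by rw [hhj, h4]; ring
      have h7 := hx i
      have h8 := hx j
      rw [h5, h6, inner_neg_left] at h8
      linarith
  have e1 : ∀ j, j ≠ i → ∀ᶠ t : ℝ in 𝓝[>] 0, inner ℝ (u j) (p + t • u i) < h j := by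
    intro j hj
    have h1 : inner ℝ (u j) p < h j := lt_of_le_of_ne (hp.1 j) (hpj j hj)
    have h2 : Tendsto (fun t : ℝ => inner ℝ (u j) (p + t • u i)) (𝓝 0) (𝓝 (inner ℝ (u j) p)) := by
      have := (inner_cont (u j) p (u i)).tendsto 0
      simpa using this
    exact (h2.eventually (gt_mem_nhds h1)).filter_mono nhdsWithin_le_nhds
  have e2 : ∀ᶠ t : ℝ in 𝓝[>] 0, ∀ j, j ≠ i → inner ℝ (u j) (p + t • u i) < h j := by
    rw [Filter.eventually_all]
    intro j
    by_cases hj : j = i
    · exact Eventually.of_forall fun _ h' => absurd hj h'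
    · exact (e1 j hj).mono fun _ h' _ => h'
  obtain ⟨t, ht, ht0⟩ := (e2.and self_mem_nhdsWithin).exists
  have ht0' : 0 < t := ht0
  refine ⟨p + t • u i, ?_, ht⟩
  rw [inner_add_right, inner_smul_right, hp.2, real_inner_self_eq_norm_sq, hu i]
  linarith

theorem hrep : S_HREP := by
  classical
  intro d hd P hP hPint
  obtain ⟨V, hV⟩ := hP
  obtain ⟨c, hc⟩ := hPint
  obtain ⟨r, hr, hball⟩ : ∃ r : ℝ, 0 < r ∧ Metric.closedBall c r ⊆ P := by
    obtain ⟨r, hr, h⟩ := Metric.isOpen_iff.1 isOpen_interior c hc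
    exact ⟨r / 2, by positivity, fun x hx => interior_subset (h (by
      rw [Metric.mem_closedBall] at hx
      rw [Metric.mem_ball]
      linarith))⟩
  have hr0 : r ≠ 0 := hr.ne'
  -- the normalised polytope
  let f : E d →ᵃ[ℝ] E d := r⁻¹ • (AffineMap.id ℝ (E d) - AffineMap.const ℝ (E d) c)
  have hf : ∀ x, f x = r⁻¹ • (x - c) := fun x => by simp [f]
  have hfinj : Function.Injective f := by
    intro x y h
    rw [hf, hf] at h
    have := smul_right_injective (E d) (inv_ne_zero hr0) h
    exact sub_left_injective this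
  set V' : Finset (E d) := V.image f with hV'
  have hP' : f '' P = convexHull ℝ (V' : Set (E d)) := by
    rw [hV, AffineMap.image_convexHull, hV', Finset.coe_image]
  set P' : Set (E d) := convexHull ℝ (V' : Set (E d)) with hP'def
  have hB : Metric.closedBall (0 : E d) 1 ⊆ P' := by
    intro x hx
    rw [← hP']
    refine ⟨c + r • x, hball ?_, ?_⟩
    · rw [Metric.mem_closedBall, dist_eq_norm, add_sub_cancel_left, norm_smul,
        Real.norm_of_nonneg hr.le]
      have : ‖x‖ ≤ 1 := by simpa using hx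
      nlinarith
    · rw [hf, add_sub_cancel_left, smul_smul, inv_mul_cancel₀ hr0, one_smul]
  have hclosed : IsClosed P' := V'.finite_toSet.isClosed_convexHull ℝ
  have hconv : Convex ℝ P' := convex_convexHull ℝ _
  have hmemP : ∀ x, x ∈ P ↔ f x ∈ P' := fun x => by
    rw [← hP']
    exact (hfinj.mem_set_image).symm
  set X : Set (E d) := (Pool.Agent.Helper840.BC.Q P').extremePoints ℝ with hX
  have hXfin : X.Finite := by
    have h1 : Pool.Agent.Helper840.BC.Q P' =
        poly (fun k : Fin V'.card => (V'.equivFin.symm k : E d)) fun _ => 1 := by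
      ext y
      constructor
      · intro hy k
        exact hy _ (subset_convexHull ℝ _ (V'.equivFin.symm k).2)
      · intro hy
        apply Pool.Agent.Helper840.BC.mem_Q_of_V
        intro v hv
        have := hy (V'.equivFin ⟨v, hv⟩)
        simpa using this
    rw [hX, h1]
    exact (ext d _ _ _).2
  have hXne0 : ∀ y ∈ X, y ≠ 0 := fun y hy => Pool.Agent.Helper840.BC.ext_ne_zero hd hy
  -- the enumeration
  let e : Fin hXfin.toFinset.card ≃ hXfin.toFinset := hXfin.toFinset.equivFin.symm
  let y : Fin hXfin.toFinset.card → E d := fun i => (e i : E d)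
  have hyX : ∀ i, y i ∈ X := fun i => hXfin.mem_toFinset.1 (e i).2
  have hysurj : ∀ z ∈ X, ∃ i, y i = z := fun z hz =>
    ⟨e.symm ⟨z, hXfin.mem_toFinset.2 hz⟩, by simp [y]⟩
  have hyinj : Function.Injective y := fun i j h => e.injective (Subtype.ext h)
  have hn0 : ∀ i, 0 < ‖y i‖ := fun i => norm_pos_iff.2 (hXne0 _ (hyX i))
  let u : Fin hXfin.toFinset.card → E d := fun i => ‖y i‖⁻¹ • y i
  let h : Fin hXfin.toFinset.card → ℝ := fun i => ‖y i‖⁻¹ * (r + inner ℝ (y i) c)
  have hineq : ∀ i x, inner ℝ (u i) x - h i = (‖y i‖⁻¹ * r) * (inner ℝ (y i) (f x) - 1) := by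
    intro i x
    simp only [u, h]
    rw [hf, real_inner_smul_left, inner_smul_right, inner_sub_right]
    field_simp
    ring
  have hpos : ∀ i, 0 < ‖y i‖⁻¹ * r := fun i => mul_pos (inv_pos.2 (hn0 i)) hr
  have hle : ∀ i x, inner ℝ (u i) x ≤ h i ↔ inner ℝ (y i) (f x) ≤ 1 := by
    intro i x
    have h1 := hineq i x
    constructor
    · intro h2
      by_contra h3
      push Not at h3
      have := mul_pos (hpos i) (sub_pos.2 h3)
      linarith
    · intro h2
      have := mul_nonneg (hpos i).le (sub_nonneg.2 h2)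
      have h4 : (‖y i‖⁻¹ * r) * (inner ℝ (y i) (f x) - 1) =
        -((‖y i‖⁻¹ * r) * (1 - inner ℝ (y i) (f x))) := by ring
      linarith
  have heq : ∀ i x, inner ℝ (u i) x = h i ↔ inner ℝ (y i) (f x) = 1 := by
    intro i x
    have h1 := hineq i x
    constructor
    · intro h2
      rw [h2, sub_self] at h1
      rcases mul_eq_zero.1 h1.symm with h3 | h3
      · exact absurd h3 (hpos i).ne'
      · linarith
    · intro h2
      rw [h2, sub_self, mul_zero] at h1
      linarith
  have hPpoly : P = poly u h := by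
    ext x
    rw [hmemP]
    constructor
    · intro hx i
      rw [hle, real_inner_comm]
      exact (hyX i).1 (f x) hx
    · intro hx
      apply Pool.Agent.Helper840.BC.bipolar hclosed hconv hB
      intro z hz
      obtain ⟨i, rfl⟩ := hysurj z hz
      have := (hle i x).1 (hx i)
      rwa [real_inner_comm] at this
  have hfc : ∀ i, f '' (fc u h i) = Pool.Agent.Helper840.BC.face P' (y i) := by
    intro i
    ext z
    constructor
    · rintro ⟨x, ⟨hx1, hx2⟩, rfl⟩
      exact ⟨(hmemP x).1 (hPpoly ▸ hx1), (heq i x).1 hx2⟩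
    · rintro ⟨hz1, hz2⟩
      rw [← hP'] at hz1
      obtain ⟨x, hx, rfl⟩ := hz1
      exact ⟨x, ⟨hPpoly ▸ hx, (heq i x).2 hz2⟩, rfl⟩
  have hfcinj : Function.Injective (fc u h) := by
    intro i j hij
    apply hyinj
    apply Pool.Agent.Helper840.BC.face_inj (hyX i)
    rw [← hfc i, ← hfc j, hij]
  have hfcne : ∀ i, (fc u h i).Nonempty := by
    intro i
    obtain ⟨v, hv, hv1⟩ := Pool.Agent.Helper840.BC.face_nonempty hd (hyX i)
    have h1 : v ∈ f '' (fc u h i) := by
      rw [hfc i]
      exact Pool.Agent.Helper840.BC.tight_subset_face ⟨hv, hv1⟩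
    obtain ⟨x, hx, -⟩ := h1
    exact ⟨x, hx⟩
  have hfr : ∀ i, Module.finrank ℝ (vectorSpan ℝ (fc u h i)) + 1 = d := by
    intro i
    have h1 := Pool.Agent.Helper840.BC.face_finrank hd (hyX i)
    rw [← hP'def, ← hfc i, ← AffineMap.map_vectorSpan] at h1
    have h2 : f.linear = r⁻¹ • (LinearMap.id : E d →ₗ[ℝ] E d) := by
      ext x
      simp [f]
    rw [h2, Submodule.map_smul _ _ _ (inv_ne_zero hr0), Submodule.map_id] at h1
    exact h1
  have hu : ∀ i, ‖u i‖ = 1 := by
    intro i
    simp only [u]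
    rw [norm_smul, norm_inv, norm_norm, inv_mul_cancel₀ (hn0 i).ne']
  have hint : ∃ x, ∀ i, inner ℝ (u i) x < h i := by
    refine ⟨c, fun i => ?_⟩
    have h1 := hineq i c
    have h2 : f c = 0 := by rw [hf, sub_self, smul_zero]
    rw [h2, inner_zero_right] at h1
    have := hpos i
    linarith
  have hbdd : Bornology.IsBounded (poly u h) := by
    rw [← hPpoly, hV]
    exact (V.finite_toSet.isCompact_convexHull ℝ).isBounded
  refine ⟨_, u, h, hPpoly, ⟨hu, hbdd, hint, beyond_of _ u h hu hint hfcinj hfcne hfr, hfcne⟩,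
    hfcinj, ?_⟩
  apply Set.Subset.antisymm
  · rw [hPpoly]
    exact fac d _ u h
  · rintro _ ⟨i, rfl⟩
    refine ⟨u i, h i, ?_, ?_, ?_, hfcne i, hfr i⟩
    · intro h0
      have := hu i
      rw [h0, norm_zero] at this
      exact zero_ne_one this
    · intro x hx
      rw [hPpoly] at hx
      exact hx i
    · rw [hPpoly]
      rfl

end Pool.Agent.Q125.LD
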