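import Pool.Agent.Q109.LD.Stm

set_option autoImplicit false

/-! # Project LD, job SLOT -/

namespace Pool.Agent.Q125.LD

open Set Q109.LD

/-- vectors orthogonal to a common vector on which `g` vanishes span at most a line -/
theorem line_of_common {m : ℕ} (a : Fin m → E 3) (g r : E 3)
    (hg : ∀ i j, LinearIndependent ℝ ![a i, a j] → ∀ w : E 3, w ≠ 0 → inner ℝ (a i) w = 0 →
      inner ℝ (a j) w = 0 → inner ℝ g w ≠ 0) (hr : r ≠ 0) (hgr : inner ℝ g r = 0)
    (A : Set (Fin m)) (hA : ∀ i ∈ A, inner ℝ (a i) r = 0) :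
    ∃ c : E 3, ∀ i ∈ A, a i ∈ Submodule.span ℝ {c} := by
  by_cases h : ∃ i ∈ A, a i ≠ 0
  · obtain ⟨i, hi, hi0⟩ := h
    refine ⟨a i, fun j hj => ?_⟩
    have h1 : ¬ LinearIndependent ℝ ![a i, a j] := fun hli =>
      hg i j hli r hr (hA i hi) (hA j hj) hgr
    rw [LinearIndependent.pair_iff' hi0] at h1
    push Not at h1
    obtain ⟨c, hc⟩ := h1
    exact Submodule.mem_span_singleton.2 ⟨c, hc⟩
  · push Not at h
    exact ⟨0, fun i hi => by rw [h i hi]; exact Submodule.zero_mem _⟩

theorem slot (hE : S_EXT) : S_SLOT := by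
  classical
  intro m a b g hg v hv
  have hspan := (hE 3 m a b).1 v hv
  have hvp : v ∈ poly a b := hv.1
  by_contra hcon
  push Not at hcon
  -- the cone contains no line
  have hpoint : ∀ w : E 3, (∀ i, inner ℝ (a i) v = b i → inner ℝ (a i) w = 0) → w = 0 := by
    intro w hw
    have h1 : w ∈ (Submodule.span ℝ (a '' {i | inner ℝ (a i) v = b i}))ᗮ := by
      rw [Submodule.mem_orthogonal]
      intro u hu
      induction hu using Submodule.span_induction with
      | mem x hx =>
        obtain ⟨i, hi, rfl⟩ := hx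
        exact hw i hi
      | zero => simp
      | add x y _ _ hx hy => rw [inner_add_left, hx, hy, add_zero]
      | smul c x _ hx => rw [inner_smul_left, hx, mul_zero]
    rwa [hspan, Submodule.top_orthogonal_eq_bot, Submodule.mem_bot] at h1
  set A : Finset (Fin m) := Finset.univ.filter fun i => inner ℝ (a i) v = b i with hAdef
  have hmemA : ∀ i, i ∈ A ↔ inner ℝ (a i) v = b i := fun i => by simp [hAdef]
  have hAne : A.Nonempty := by
    rw [Finset.nonempty_iff_ne_empty]
    intro he
    have h1 : {i | inner ℝ (a i) v = b i} = ∅ := by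
      ext i
      have := hmemA i
      rw [he] at this
      simpa using this.symm
    rw [h1, Set.image_empty, Submodule.span_empty] at hspan
    have h2 : Module.finrank ℝ (⊤ : Submodule ℝ (E 3)) = 3 := by
      rw [finrank_top, finrank_euclideanSpace_fin]
    rw [← hspan, finrank_bot] at h2
    omega
  -- a functional which is positive on the cone
  set l : E 3 := -∑ j ∈ A, a j with hl
  have hlK : ∀ e : E 3, (∀ j, inner ℝ (a j) v = b j → inner ℝ (a j) e ≤ 0) → e ≠ 0 →
      0 < inner ℝ l e := by
    intro e he he0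
    rw [hl, inner_neg_left, sum_inner]
    by_contra hc
    push Not at hc
    have h1 : ∑ j ∈ A, inner ℝ (a j) e ≤ 0 :=
      Finset.sum_nonpos fun j hj => he j ((hmemA j).1 hj)
    have h2 : ∑ j ∈ A, inner ℝ (a j) e = 0 := by linarith
    have h3 := (Finset.sum_eq_zero_iff_of_nonpos fun j hj => he j ((hmemA j).1 hj)).1 h2
    exact he0 (hpoint e fun j hj => h3 j ((hmemA j).2 hj))
  have hg0 : g ≠ 0 := by
    rintro rfl
    obtain ⟨i, hi⟩ := hAne
    obtain ⟨⟨y, hy, hlt⟩, -⟩ := hcon i ((hmemA i).1 hi)
    simp at hlt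
  -- the vectors `e i`
  have hex : ∀ i, i ∈ A → ∃ e : E 3, (∀ j, inner ℝ (a j) v = b j → inner ℝ (a j) e ≤ 0) ∧
      inner ℝ (a i) e = 0 ∧ inner ℝ g e = 0 ∧ inner ℝ l e = 1 := by
    intro i hi
    have hi' := (hmemA i).1 hi
    obtain ⟨⟨y, hy, hlt⟩, ⟨y', hy', hlt'⟩⟩ := hcon i hi'
    set α : ℝ := inner ℝ g v - inner ℝ g y' with hα
    set β : ℝ := inner ℝ g y - inner ℝ g v with hβ
    have hα0 : 0 < α := by linarith
    have hβ0 : 0 < β := by linarith
    have hK : ∀ z ∈ poly a b, ∀ j, inner ℝ (a j) v = b j → inner ℝ (a j) (z - v) ≤ 0 := by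
      intro z hz j hj
      rw [inner_sub_right, hj]
      have := hz j
      linarith
    have hKe : ∀ j, inner ℝ (a j) v = b j → inner ℝ (a j) (α • (y - v) + β • (y' - v)) ≤ 0 := by
      intro j hj
      rw [inner_add_right, inner_smul_right, inner_smul_right]
      have h1 := hK y hy.1 j hj
      have h2 := hK y' hy'.1 j hj
      have h3 := mul_nonneg hα0.le (neg_nonneg.2 h1)
      have h4 := mul_nonneg hβ0.le (neg_nonneg.2 h2)
      linarith
    have he0 : α • (y - v) + β • (y' - v) ≠ 0 := by
      intro he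
      have h1 : y - v = 0 := by
        apply hpoint
        intro j hj
        have h2 := hK y hy.1 j hj
        have h3 := hK y' hy'.1 j hj
        have h4 : inner ℝ (a j) (α • (y - v) + β • (y' - v)) = 0 := by rw [he, inner_zero_right]
        rw [inner_add_right, inner_smul_right, inner_smul_right] at h4
        have h5 := mul_nonneg hα0.le (neg_nonneg.2 h2)
        have h6 := mul_nonneg hβ0.le (neg_nonneg.2 h3)
        have h7 : α * inner ℝ (a j) (y - v) = 0 := by linarith
        rcases mul_eq_zero.1 h7 with h8 | h8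
        · exact absurd h8 hα0.ne'
        · exact h8
      rw [sub_eq_zero.1 h1] at hlt
      exact lt_irrefl _ hlt
    have hpos := hlK _ hKe he0
    have hae : inner ℝ (a i) (α • (y - v) + β • (y' - v)) = 0 := by
      rw [inner_add_right, inner_smul_right, inner_smul_right,
        inner_sub_right, inner_sub_right, hi', hy.2, hy'.2]
      ring
    have hge : inner ℝ g (α • (y - v) + β • (y' - v)) = 0 := by
      rw [inner_add_right, inner_smul_right, inner_smul_right,
        inner_sub_right, inner_sub_right, hα, hβ]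
      ring
    refine ⟨(inner ℝ l (α • (y - v) + β • (y' - v)))⁻¹ • (α • (y - v) + β • (y' - v)),
      fun j hj => ?_, ?_, ?_, ?_⟩
    · rw [inner_smul_right]
      exact mul_nonpos_of_nonneg_of_nonpos (inv_pos.2 hpos).le (hKe j hj)
    · rw [inner_smul_right, hae, mul_zero]
    · rw [inner_smul_right, hge, mul_zero]
    · rw [inner_smul_right, inv_mul_cancel₀ hpos.ne']
  choose! e he1 he2 he3 he4 using hex
  have hene : ∀ i ∈ A, e i ≠ 0 := by
    intro i hi h
    have := he4 i hi
    rw [h, inner_zero_right] at this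
    exact zero_ne_one this
  -- they lie on a line
  obtain ⟨i₀, hi₀⟩ := hAne
  obtain ⟨q, hq⟩ : ∃ q : E 3, ∀ i ∈ A, ∃ s : ℝ, e i = e i₀ + s • q := by
    have hli : LinearIndependent ℝ ![g, l] := by
      rw [LinearIndependent.pair_iff]
      intro s t hst
      have h1 : inner ℝ (s • g + t • l) (e i₀) = 0 := by rw [hst, inner_zero_left]
      rw [inner_add_left, real_inner_smul_left, real_inner_smul_left, he3 i₀ hi₀, he4 i₀ hi₀] at h1
      have ht : t = 0 := by linarith
      rw [ht, zero_smul, add_zero] at hst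
      rcases smul_eq_zero.1 hst with h | h
      · exact ⟨h, ht⟩
      · exact absurd h hg0
    have h2 : Module.finrank ℝ (Submodule.span ℝ (Set.range ![g, l])) = 2 := by
      rw [finrank_span_eq_card hli, Fintype.card_fin]
    have h3 := Submodule.finrank_add_finrank_orthogonal (Submodule.span ℝ (Set.range ![g, l]))
    rw [h2, finrank_euclideanSpace_fin] at h3
    have h4 : Module.finrank ℝ (Submodule.span ℝ (Set.range ![g, l]))ᗮ = 1 := by omega
    obtain ⟨q, -, hq⟩ := finrank_eq_one_iff'.1 h4
    refine ⟨q, fun i hi => ?_⟩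
    have h5 : e i - e i₀ ∈ (Submodule.span ℝ (Set.range ![g, l]))ᗮ := by
      rw [Submodule.mem_orthogonal]
      intro u hu
      induction hu using Submodule.span_induction with
      | mem x hx =>
        obtain ⟨k, rfl⟩ := hx
        fin_cases k
        · show inner ℝ g (e i - e i₀) = 0
          rw [inner_sub_right, he3 i hi, he3 i₀ hi₀, sub_self]
        · show inner ℝ l (e i - e i₀) = 0
          rw [inner_sub_right, he4 i hi, he4 i₀ hi₀, sub_self]
      | zero => simp
      | add x y _ _ hx hy => rw [inner_add_left, hx, hy, add_zero]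
      | smul c x _ hx => rw [inner_smul_left, hx, mul_zero]
    obtain ⟨c, hc⟩ := hq ⟨e i - e i₀, h5⟩
    refine ⟨c, ?_⟩
    have h6 := congrArg Subtype.val hc
    simp only [Submodule.coe_smul] at h6
    rw [h6]
    abel
  choose! s hs using hq
  -- the extreme ones
  obtain ⟨p, hp, hpmin⟩ := Finset.exists_min_image A s ⟨i₀, hi₀⟩
  obtain ⟨r, hr, hrmax⟩ := Finset.exists_max_image A s ⟨i₀, hi₀⟩
  have hsplit : ∀ i ∈ A, inner ℝ (a i) (e p) = 0 ∨ inner ℝ (a i) (e r) = 0 := by
    intro i hi
    by_contra hc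
    push Not at hc
    obtain ⟨hc1, hc2⟩ := hc
    have hi' := (hmemA i).1 hi
    have h1 : (s r - s p) • e i = (s r - s i) • e p + (s i - s p) • e r := by
      rw [hs i hi, hs p hp, hs r hr]
      module
    have h2 := congrArg (fun z => inner ℝ (a i) z) h1
    simp only [inner_add_right, inner_smul_right, he2 i hi, mul_zero] at h2
    have n1 := he1 p hp i hi'
    have n2 := he1 r hr i hi'
    have h3 := mul_nonneg (sub_nonneg.2 (hrmax i hi)) (neg_nonneg.2 n1)
    have h4 := mul_nonneg (sub_nonneg.2 (hpmin i hi)) (neg_nonneg.2 n2)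
    have h5 : (s r - s i) * inner ℝ (a i) (e p) = 0 := by linarith
    have h6 : (s i - s p) * inner ℝ (a i) (e r) = 0 := by linarith
    have h7 : s i = s p := by
      rcases mul_eq_zero.1 h6 with h | h
      · linarith
      · exact absurd h hc2
    have h8 : e i = e p := by rw [hs i hi, hs p hp, h7]
    exact hc1 (by rw [← h8]; exact he2 i hi)
  obtain ⟨c₁, hc₁⟩ := line_of_common a g (e p) hg (hene p hp) (he3 p hp)
    {i | inner ℝ (a i) (e p) = 0} fun i hi => hi
  obtain ⟨c₂, hc₂⟩ := line_of_common a g (e r) hg (hene r hr) (he3 r hr)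
    {i | inner ℝ (a i) (e r) = 0} fun i hi => hi
  have htop : (⊤ : Submodule ℝ (E 3)) ≤ Submodule.span ℝ (({c₁, c₂} : Finset (E 3)) : Set (E 3)) := by
    rw [← hspan, Submodule.span_le]
    rintro _ ⟨i, hi, rfl⟩
    have hi' : i ∈ A := (hmemA i).2 hi
    rcases hsplit i hi' with h | h
    · exact Submodule.span_mono (by simp) (hc₁ i h)
    · exact Submodule.span_mono (by simp) (hc₂ i h)
  have h1 : Module.finrank ℝ (⊤ : Submodule ℝ (E 3)) ≤ 2 := by
    calc Module.finrank ℝ (⊤ : Submodule ℝ (E 3)) ≤
        Module.finrank ℝ (Submodule.span ℝ (({c₁, c₂} : Finset (E 3)) : Set (E 3))) :=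
          Submodule.finrank_mono htop
      _ ≤ ({c₁, c₂} : Finset (E 3)).card := finrank_span_finset_le_card _
      _ ≤ 2 := Finset.card_le_two
  rw [finrank_top, finrank_euclideanSpace_fin] at h1
  omega

end Pool.Agent.Q125.LD
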