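import Pool.Agent.Q125.LD.Ext

set_option autoImplicit false

/-! # Project LD, job TRU (truncation) -/

namespace Pool.Agent.Q125.LD

open Set Q109.LD Filter Topology

variable {d m : ℕ}

/-- if all inequalities are strict at a point, it is an interior point -/
theorem mem_interior_poly (a : Fin m → E d) (b : Fin m → ℝ) (x : E d)
    (hx : ∀ i, inner ℝ (a i) x < b i) : x ∈ interior (poly a b) := by
  have ho : IsOpen {y : E d | ∀ i, inner ℝ (a i) y < b i} := by
    have : {y : E d | ∀ i, inner ℝ (a i) y < b i} = ⋂ i, {y | inner ℝ (a i) y < b i} := by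
      ext y
      simp
    rw [this]
    exact isOpen_iInter_of_finite fun i => isOpen_lt (by fun_prop) continuous_const
  exact mem_interior.2 ⟨_, fun y hy i => (hy i).le, ho, hx⟩

/-- the points of a facet are boundary points -/
theorem facet_frontier (P : Set (E d)) (hP : IsClosed P) (F : Set (E d)) (hF : IsFacet P F) :
    F ⊆ frontier P := by
  obtain ⟨u, h, hu, hle, hFe, -, -⟩ := hF
  intro x hx
  rw [hFe] at hx
  rw [hP.frontier_eq]
  refine ⟨hx.1, fun hi => ?_⟩
  have h1 : ∀ᶠ t : ℝ in 𝓝[>] 0, x + t • u ∈ P := by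
    have h2 : Tendsto (fun t : ℝ => x + t • u) (𝓝 0) (𝓝 x) := by
      have : Continuous fun t : ℝ => x + t • u := by fun_prop
      have := this.tendsto 0
      simpa using this
    exact (h2.eventually (mem_interior_iff_mem_nhds.1 hi)).filter_mono nhdsWithin_le_nhds
  obtain ⟨t, ht, ht0⟩ := (h1.and self_mem_nhdsWithin).exists
  have ht0' : 0 < t := ht0
  have h3 := hle _ ht
  rw [inner_add_right, inner_smul_right, hx.2, real_inner_self_eq_norm_sq] at h3
  have h2 : 0 < t * ‖u‖ ^ 2 := mul_pos ht0' (pow_pos (norm_pos_iff.2 hu) 2)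
  linarith

/-- the set in the definition of `minRep` is not empty -/
theorem exists_represents (P : Set (E d)) (hP : IsClosed P)
    (hfin : {F : Set (E d) | IsFacet P F}.Finite) : ∃ K, Represents P K := by
  classical
  have hne : ∀ F : {F : Set (E d) | IsFacet P F}, (F : Set (E d)).Nonempty := by
    rintro ⟨F, u, h, hu, hle, hFe, hne, -⟩
    exact hne
  choose p hp using hne
  have := hfin.to_subtype
  refine ⟨Set.range p, Set.finite_range p, ?_, fun F hF => ?_⟩
  · rintro _ ⟨F, rfl⟩
    exact facet_frontier P hP F F.2 (hp F)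
  · exact ⟨p ⟨F, hF⟩, ⟨⟨F, hF⟩, rfl⟩, hp ⟨F, hF⟩⟩

theorem tru (hBP : S_BP) (hFAC : S_FAC) : S_TRU := by
  classical
  intro d N hd a b W R hT hW
  obtain ⟨hR, hb, hsym, hws, hwm, hwn, hball⟩ := hT
  -- the size of the truncation
  obtain ⟨ε, ⟨hεR, hε8⟩, hε0⟩ : ∃ ε : ℝ, (ε < R ∧ ∀ w ∈ W, ∀ w' ∈ W, w ≠ w' →
      8 * ε < ‖w - w'‖ ^ 2) ∧ 0 < ε := by
    have e1 : ∀ᶠ ε : ℝ in 𝓝[>] 0, ε < R := (gt_mem_nhds hR).filter_mono nhdsWithin_le_nhds
    have e2 : ∀ᶠ ε : ℝ in 𝓝[>] 0, ∀ w ∈ W, ∀ w' ∈ W, w ≠ w' → 8 * ε < ‖w - w'‖ ^ 2 := by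
      rw [Filter.eventually_all_finset]
      intro w _
      rw [Filter.eventually_all_finset]
      intro w' _
      by_cases h : w = w'
      · exact Eventually.of_forall fun _ h' => absurd h h'
      · have h0 : 0 < ‖w - w'‖ ^ 2 := pow_pos (norm_pos_iff.2 (sub_ne_zero.2 h)) 2
        have h1 : Tendsto (fun ε : ℝ => 8 * ε) (𝓝 0) (𝓝 0) := by
          have : Continuous fun ε : ℝ => 8 * ε := by fun_prop
          have := this.tendsto 0
          simpa using this
        exact ((h1.eventually (gt_mem_nhds h0)).filter_mono nhdsWithin_le_nhds).mono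
          fun _ h' _ => h'
    obtain ⟨ε, h1, h2⟩ := ((e1.and e2).and self_mem_nhdsWithin).exists
    exact ⟨ε, h1, h2⟩
  -- the polytope
  let a' : Fin (N + W.card) → E d := Fin.append a fun j => (W.equivFin.symm j : E d)
  let b' : Fin (N + W.card) → ℝ := Fin.append b fun _ => R - ε
  set P : Set (E d) := poly a' b' with hPdef
  have hmem : ∀ x, x ∈ P ↔ x ∈ poly a b ∧ ∀ w ∈ W, inner ℝ w x ≤ R - ε := by
    intro x
    constructor
    · intro h
      refine ⟨fun i => ?_, fun w hw => ?_⟩
      · have := h (Fin.castAdd _ i)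
        simpa [a', b', Fin.append_left] using this
      · have := h (Fin.natAdd _ (W.equivFin ⟨w, hw⟩))
        simpa [a', b', Fin.append_right] using this
    · rintro ⟨h1, h2⟩ i
      refine Fin.addCases (fun j => ?_) (fun j => ?_) i
      · simpa [a', b', Fin.append_left] using h1 j
      · simpa [a', b', Fin.append_right] using h2 _ (W.equivFin.symm j).2
  have hbdd : Bornology.IsBounded P := by
    rw [isBounded_iff_forall_norm_le]
    refine ⟨Real.sqrt R, fun x hx => ?_⟩
    exact Real.le_sqrt_of_sq_le (hball x ((hmem x).1 hx).1)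
  have hpoly : IsPolytope P := hBP d _ a' b' hbdd
  have hint : (interior P).Nonempty := by
    refine ⟨0, mem_interior_poly a' b' 0 fun i => ?_⟩
    rw [inner_zero_right]
    refine Fin.addCases (fun j => ?_) (fun j => ?_) i
    · simpa [b', Fin.append_left] using hb j
    · simpa [b', Fin.append_right] using hεR
  have hneg : ∀ x, x ∈ P → -x ∈ P := by
    intro x hx
    rw [hmem] at hx ⊢
    refine ⟨(hsym x).1 hx.1, fun w hw => ?_⟩
    have := hx.2 (-w) (hws w hw)
    rwa [inner_neg_left, ← inner_neg_right] at this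
  have hcs : IsCentrallySymmetric P := by
    refine ⟨0, fun x => ?_⟩
    rw [smul_zero, zero_sub]
    exact ⟨hneg x, fun h => by simpa using hneg _ h⟩
  have hclosed : IsClosed P := poly_closed a' b'
  have hfinR : (Set.range (fc a' b')).Finite := Set.finite_range _
  have hfin : {F : Set (E d) | IsFacet P F}.Finite := hfinR.subset (hFAC d _ a' b')
  have hcard : {F : Set (E d) | IsFacet P F}.ncard ≤ N + W.card := by
    calc {F : Set (E d) | IsFacet P F}.ncard ≤ (Set.range (fc a' b')).ncard :=
          Set.ncard_le_ncard (hFAC d _ a' b') hfinR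
      _ ≤ N + W.card := by
          have h1 : (Set.range (fc a' b')).ncard ≤ Nat.card (Fin (N + W.card)) := by
            rw [← Set.image_univ]
            exact (Set.ncard_image_le Set.finite_univ).trans (by rw [Set.ncard_univ])
          simpa using h1
  -- the new facets
  let G : E d → Set (E d) := fun w => {x | x ∈ P ∧ inner ℝ w x = R - ε}
  have hw0 : ∀ w ∈ W, w ≠ 0 := by
    intro w hw h
    have := hwn w hw
    rw [h, norm_zero] at this
    norm_num at this
    linarith
  have hrat : 0 < 1 - ε / R ∧ 1 - ε / R < 1 := by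
    constructor
    · have : ε / R < 1 := by rw [div_lt_one hR]; exact hεR
      linarith
    · have : 0 < ε / R := by positivity
      linarith
  have hRR : (1 - ε / R) * R = R - ε := by field_simp
  have hfacet : ∀ w ∈ W, IsFacet P (G w) := by
    intro w hw
    -- the centre of the facet
    have hyP : (1 - ε / R) • w ∈ P := by
      rw [hmem]
      refine ⟨fun i => ?_, fun w' hw' => ?_⟩
      · rw [inner_smul_right]
        have h1 := hwm w hw i
        have h2 := hb i
        nlinarith [hrat.1, hrat.2]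
      · rw [inner_smul_right, ← hRR]
        apply mul_le_mul_of_nonneg_left _ hrat.1.le
        have h1 := real_inner_le_norm w' w
        have h2 : ‖w'‖ * ‖w‖ ≤ R := by nlinarith [hwn w hw, hwn w' hw', sq_nonneg (‖w'‖ - ‖w‖)]
        linarith
    have hyw : inner ℝ w ((1 - ε / R) • w) = R - ε := by
      rw [inner_smul_right, real_inner_self_eq_norm_sq, hwn w hw, hRR]
    have hstep : ∀ z : E d, inner ℝ w z = 0 → ∀ᶠ t : ℝ in 𝓝[>] 0,
        (1 - ε / R) • w + t • z ∈ P := by
      intro z hz
      apply eventually_mem a' b' _ z hyP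
      intro i
      refine Fin.addCases (fun j => ?_) (fun j => ?_) i
      · intro he
        simp only [a', b', Fin.append_left] at he
        rw [inner_smul_right] at he
        have h1 := hwm w hw j
        have h2 := hb j
        exfalso
        nlinarith [hrat.1, hrat.2]
      · intro he
        simp only [a', b', Fin.append_right] at he ⊢
        by_cases hww : (W.equivFin.symm j : E d) = w
        · rw [hww, hz]
        · exfalso
          set w' : E d := (W.equivFin.symm j : E d)
          have hw' : w' ∈ W := (W.equivFin.symm j).2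
          have h1 := hε8 w' hw' w hw hww
          rw [norm_sub_sq_real, hwn w hw, hwn w' hw'] at h1
          rw [inner_smul_right, ← hRR] at he
          have h2 := mul_left_cancel₀ hrat.1.ne' he
          rw [h2] at h1
          linarith
    refine ⟨w, R - ε, hw0 w hw, fun x hx => ((hmem x).1 hx).2 w hw, rfl,
      ⟨_, hyP, hyw⟩, ?_⟩
    have hvs : vectorSpan ℝ (G w) = (Submodule.span ℝ {w})ᗮ := by
      apply le_antisymm
      · rw [vectorSpan, Submodule.span_le]
        rintro z ⟨x, hx, y, hy, rfl⟩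
        rw [SetLike.mem_coe, Submodule.mem_orthogonal_singleton_iff_inner_right]
        simp only [vsub_eq_sub]
        rw [inner_sub_right, hx.2, hy.2, sub_self]
      · intro z hz
        rw [Submodule.mem_orthogonal_singleton_iff_inner_right] at hz
        obtain ⟨t, ht, ht0⟩ := ((hstep z hz).and self_mem_nhdsWithin).exists
        have ht0' : 0 < t := ht0
        have h1 : (1 - ε / R) • w + t • z ∈ G w :=
          ⟨ht, by rw [inner_add_right, hyw, inner_smul_right, hz, mul_zero, add_zero]⟩
        have h2 : t • z ∈ vectorSpan ℝ (G w) := by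
          have := vsub_mem_vectorSpan ℝ h1 (⟨hyP, hyw⟩ : (1 - ε / R) • w ∈ G w)
          rw [vsub_eq_sub, add_sub_cancel_left] at this
          exact this
        have h3 := Submodule.smul_mem _ t⁻¹ h2
        rwa [smul_smul, inv_mul_cancel₀ ht0'.ne', one_smul] at h3
    rw [hvs]
    have h1 := Submodule.finrank_add_finrank_orthogonal (Submodule.span ℝ {w})
    rw [finrank_span_singleton (hw0 w hw), finrank_euclideanSpace_fin] at h1
    omega
  -- the new facets are pairwise disjoint
  have hdisj : ∀ w ∈ W, ∀ w' ∈ W, ∀ x, x ∈ G w → x ∈ G w' → w = w' := by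
    intro w hw w' hw' x hx hx'
    by_contra hne
    have h1 := hε8 w hw w' hw' hne
    have hxR := hball x ((hmem x).1 hx.1).1
    have e1 : ‖x - w‖ ^ 2 ≤ 2 * ε := by
      rw [norm_sub_sq_real, real_inner_comm, hx.2, hwn w hw]
      linarith
    have e2 : ‖x - w'‖ ^ 2 ≤ 2 * ε := by
      rw [norm_sub_sq_real, real_inner_comm, hx'.2, hwn w' hw']
      linarith
    have e3 : ‖w - w'‖ ^ 2 ≤ 2 * (‖x - w‖ ^ 2 + ‖x - w'‖ ^ 2) := by
      have h2 : ‖w - w'‖ ≤ ‖x - w‖ + ‖x - w'‖ := by
        have : w - w' = -(x - w) + (x - w') := by abel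
        rw [this]
        calc _ ≤ ‖-(x - w)‖ + ‖x - w'‖ := norm_add_le _ _
          _ = _ := by rw [norm_neg]
      nlinarith [norm_nonneg (w - w'), norm_nonneg (x - w), norm_nonneg (x - w'),
        sq_nonneg (‖x - w‖ - ‖x - w'‖)]
    linarith
  -- at least `|W|` points
  obtain ⟨K, hK, hKc⟩ : minRep P ∈ {k : ℕ | ∃ K : Set (E d), Represents P K ∧ K.ncard = k} := by
    apply Nat.sInf_mem
    obtain ⟨K, hK⟩ := exists_represents P hclosed hfin
    exact ⟨_, K, hK, rfl⟩
  have hWK : W.card ≤ minRep P := by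
    have hne : ∀ w : W, ∃ x, x ∈ K ∧ x ∈ G w := by
      rintro ⟨w, hw⟩
      obtain ⟨x, hx1, hx2⟩ := hK.2.2 (G w) (hfacet w hw)
      exact ⟨x, hx1, hx2⟩
    choose p hp1 hp2 using hne
    have hinj : Function.Injective p := by
      intro w w' h
      apply Subtype.ext
      exact hdisj w w.2 w' w'.2 (p w) (hp2 w) (by rw [h]; exact hp2 w')
    rw [← hKc]
    have h1 : (Set.range p).ncard ≤ K.ncard :=
      Set.ncard_le_ncard (by rintro _ ⟨w, rfl⟩; exact hp1 w) hK.1
    have h2 : (Set.range p).ncard = W.card := by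
      rw [← Set.image_univ, Set.ncard_image_of_injective _ hinj, Set.ncard_univ]
      simp
    omega
  have hpos : 0 < {F : Set (E d) | IsFacet P F}.ncard := by
    rw [Set.ncard_pos hfin]
    obtain ⟨w, hw⟩ := hW
    exact ⟨G w, hfacet w hw⟩
  refine ⟨ratio P, ⟨P, hpoly, hint, hcs, rfl⟩, ?_⟩
  unfold ratio
  have hposR : (0 : ℝ) < ({F : Set (E d) | IsFacet P F}.ncard : ℝ) := by exact_mod_cast hpos
  have hcardR : ({F : Set (E d) | IsFacet P F}.ncard : ℝ) ≤ (N : ℝ) + (W.card : ℝ) := by
    exact_mod_cast hcard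
  calc (W.card : ℝ) / ((N : ℝ) + (W.card : ℝ)) ≤
        (W.card : ℝ) / ({F : Set (E d) | IsFacet P F}.ncard : ℝ) :=
        div_le_div_of_nonneg_left (Nat.cast_nonneg _) hposR hcardR
    _ ≤ (minRep P : ℝ) / ({F : Set (E d) | IsFacet P F}.ncard : ℝ) := by
        apply div_le_div_of_nonneg_right _ hposR.le
        exact_mod_cast hWK

end Pool.Agent.Q125.LD
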