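import Pool.Agent.Q109.LD.Stm

set_option autoImplicit false

/-! # Project LD, job FIN (the theorem) -/

namespace Pool.Agent.Q125.LD

open Set Q109.LD Filter Topology

theorem isLUB_of (d : ℕ) (L : ℝ) (hu : ∀ t ∈ ratios d, t ≤ L)
    (hl : ∀ ε : ℝ, 0 < ε → ∃ t ∈ ratios d, L - ε < t) : IsLUB (ratios d) L := by
  refine ⟨fun t ht => hu t ht, fun c hc => ?_⟩
  by_contra h
  push Not at h
  obtain ⟨t, ht, hlt⟩ := hl (L - c) (by linarith)
  have := hc ht
  linarith

theorem fin (h3 : S_UP3) (h1 : S_UP1) (hT : S_TRU) (hF3 : S_FAM3) (hF4 : S_FAM4) : S_FIN := by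
  constructor
  · apply isLUB_of
    · rintro t ⟨P, hP, hi, -, rfl⟩
      exact h3 P hP hi
    · intro ε hε
      obtain ⟨m, hm⟩ := exists_nat_gt (1 / ε)
      obtain ⟨a, b, W, hW, hTr⟩ := hF3 (m + 2) (by omega)
      have hWne : W.Nonempty := by
        rw [← Finset.card_pos, hW]
        omega
      obtain ⟨t, ht, hle⟩ := hT 3 _ (by norm_num) a b W 2 hTr hWne
      refine ⟨t, ht, lt_of_lt_of_le ?_ hle⟩
      rw [hW]
      push_cast
      have hm0 : (0 : ℝ) ≤ m := Nat.cast_nonneg m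
      have hden : (0 : ℝ) < 2 * ((m : ℝ) + 2) + 2 + 4 * ((m : ℝ) + 2) := by positivity
      rw [lt_div_iff₀ hden]
      have h4 : 1 < ε * m := by
        rw [div_lt_iff₀ hε] at hm
        linarith
      nlinarith
  · intro d hd
    apply isLUB_of
    · rintro t ⟨P, hP, hi, -, rfl⟩
      exact h1 d (by omega) P hP hi
    · intro ε hε
      -- `4 m^2 / (N + 4 m^2)` with `N = 4 m + 2 (d - 4)`
      obtain ⟨m, hm⟩ := exists_nat_gt ((2 * d + 8) / ε)
      have hm0 : (0 : ℝ) ≤ m := Nat.cast_nonneg m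
      obtain ⟨a, b, W, R, hW, hTr⟩ := hF4 d (m + 2) hd (by omega)
      have hWne : W.Nonempty := by
        rw [← Finset.card_pos]
        have : 0 < 4 * (m + 2) ^ 2 := by positivity
        omega
      obtain ⟨t, ht, hle⟩ := hT d _ (by omega) a b W R hTr hWne
      refine ⟨t, ht, lt_of_lt_of_le ?_ hle⟩
      have hWR : (4 : ℝ) * ((m : ℝ) + 2) ^ 2 ≤ (W.card : ℝ) := by exact_mod_cast hW
      have hNR : (((4 * (m + 2) + 2 * (d - 4) : ℕ) : ℝ)) ≤ 4 * ((m : ℝ) + 2) + 2 * d := by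
        have : 4 * (m + 2) + 2 * (d - 4) ≤ 4 * (m + 2) + 2 * d := by omega
        exact_mod_cast this
      have hN0 : (0 : ℝ) ≤ (((4 * (m + 2) + 2 * (d - 4) : ℕ) : ℝ)) := Nat.cast_nonneg _
      have hWpos : (0 : ℝ) < W.card := by
        have : (0 : ℝ) < 4 * ((m : ℝ) + 2) ^ 2 := by positivity
        linarith
      rw [lt_div_iff₀ (by linarith)]
      have h5 : (2 * d + 8 : ℝ) < ε * m := by
        rw [div_lt_iff₀ hε] at hm
        linarith
      have hd0 : (0 : ℝ) ≤ d := Nat.cast_nonneg d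
      -- `N < ε W`
      have h6 : (((4 * (m + 2) + 2 * (d - 4) : ℕ) : ℝ)) < ε * W.card := by
        have h7 : ε * (4 * ((m : ℝ) + 2) ^ 2) ≤ ε * W.card :=
          mul_le_mul_of_nonneg_left hWR hε.le
        have h8 : 4 * ((m : ℝ) + 2) + 2 * d < ε * (4 * ((m : ℝ) + 2) ^ 2) := by
          have h9 : (2 * d + 8 : ℝ) * (m + 2) ≤ (ε * m) * (m + 2) :=
            mul_le_mul_of_nonneg_right h5.le (by linarith)
          have h10 : 0 ≤ ε * m := by positivity
          nlinarith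
        linarith
      nlinarith

end Pool.Agent.Q125.LD
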